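import Pool.Agent.helper26.IM.SpecA

set_option autoImplicit false

namespace Pool.Agent.helper26.IM

open Finset Pool.Agent.RRank Pool.Agent.helper35.MR

noncomputable section

/-- a root of a monic equation with coefficients in a subring is integral -/
theorem STP_int {A L : Type} [CommRing A] [Field L] [Algebra A L] (N : ℕ) (c : Fin N → A) (x : L)
    (h : x ^ N + ∑ i : Fin N, algebraMap A L (c i) * x ^ (i : ℕ) = 0) : IsIntegral A x := by
  refine ⟨Polynomial.X ^ N + ∑ i : Fin N, Polynomial.C (c i) * Polynomial.X ^ (i : ℕ), ?_, ?_⟩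
  · exact Polynomial.monic_X_pow_add (Polynomial.degree_sum_fin_lt _)
  · simp only [Polynomial.eval₂_add, Polynomial.eval₂_X_pow, Polynomial.eval₂_finsetSum,
      Polynomial.eval₂_mul, Polynomial.eval₂_C]
    exact h

theorem STP (hGLO : GLO_stmt) (hEXI : EXI_stmt) (hGHO : GHO_stmt) : STP_stmt := by
  classical
  intro K _ _ n m N q l B 𝒰 D φ D₀ hφ d k hev
  let A : Subalgebra K (UF 𝒰 fun _ : B => K) := Algebra.adjoin K
    (Set.range fun i => (UF.mk 𝒰 (fun b => D b i) : UF 𝒰 fun _ : B => K))
  let C : Subalgebra K (UF 𝒰 fun _ : B => K) :=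
    (integralClosure A (UF 𝒰 fun _ : B => K)).restrictScalars K
  have hC : ∀ x : UF 𝒰 fun _ : B => K, x ∈ C ↔ IsIntegral A x := fun x => Iff.rfl
  have hAC : A ≤ C := by
    intro x hx
    rw [hC]
    exact isIntegral_algebraMap (x := (⟨x, hx⟩ : A))
  obtain ⟨ψ, hψ⟩ := hEXI K (UF 𝒰 fun _ : B => K) A C hAC (fun x hx => hx) φ
  -- choose the values
  have hch : ∃ t : B → Fin n × Fin m → Fin n × Fin m → Fin n × Fin m → K,
      ∀ᶠ c in (𝒰 : Filter B), Good l (t c) (Function.update d k (D c)) := by
    refine ⟨fun c => if h : ∃ t, Good l t (Function.update d k (D c)) then h.choose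
      else fun _ _ _ => 0, ?_⟩
    filter_upwards [hev] with c hc
    rw [dif_pos hc]
    exact hc.choose_spec
  obtain ⟨t, ht⟩ := hch
  have hG := hGLO B 𝒰 K n m N q l t (fun c => Function.update d k (D c)) ht
  -- the data are in `A`
  have hDA : ∀ (i : Fin n) (j : DI m N q),
      (UF.mk 𝒰 (fun c => Function.update d k (D c) i j) : UF 𝒰 fun _ : B => K) ∈ A := by
    intro i j
    by_cases hik : i = k
    · subst hik
      have : (fun c => Function.update d i (D c) i j) = fun c => D c j := by
        funext c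
        rw [Function.update_self]
      rw [this]
      exact Algebra.subset_adjoin ⟨j, rfl⟩
    · have : (fun c => Function.update d k (D c) i j) = fun _ => d i j := by
        funext c
        rw [Function.update_of_ne hik]
      rw [this]
      exact Subalgebra.algebraMap_mem A (d i j)
  have htC : ∀ x y z : Fin n × Fin m,
      (UF.mk 𝒰 (fun c => t c x y z) : UF 𝒰 fun _ : B => K) ∈ C := by
    intro x y z
    rw [hC]
    have he := hG.eqn x y z
    refine STP_int N (fun i => ∑ s : Fin q,
      (⟨_, hDA x.1 (Sum.inl (0, x.2, i, s))⟩ : A) * ⟨_, hDA y.1 (Sum.inl (1, y.2, i, s))⟩ *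
        ⟨_, hDA z.1 (Sum.inl (2, z.2, i, s))⟩) _ ?_
    rw [← he]
    congr 1
    refine Finset.sum_congr rfl fun i _ => ?_
    congr 1
    rw [map_sum]
    refine Finset.sum_congr rfl fun s _ => ?_
    rw [map_mul, map_mul]
    rfl
  have hfin := hGHO K (UF 𝒰 fun _ : B => K) C ψ n m N q l
    (fun x y z => ⟨_, htC x y z⟩) (fun i j => ⟨_, hAC (hDA i j)⟩) hG
  have hD : (fun i j => ψ ⟨(UF.mk 𝒰 (fun c => Function.update d k (D c) i j) :
      UF 𝒰 fun _ : B => K), hAC (hDA i j)⟩) = Function.update d k D₀ := by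
    funext i j
    by_cases hik : i = k
    · subst hik
      rw [Function.update_self]
      have h1 : (fun c => Function.update d i (D c) i j) = fun c => D c j := by
        funext c
        rw [Function.update_self]
      have h2 := hψ ⟨(UF.mk 𝒰 (fun c => Function.update d i (D c) i j) :
        UF 𝒰 fun _ : B => K), hDA i j⟩
      have h3 : (⟨(UF.mk 𝒰 (fun c => Function.update d i (D c) i j) : UF 𝒰 fun _ : B => K),
          hAC (hDA i j)⟩ : C) = Subalgebra.inclusion hAC ⟨(UF.mk 𝒰
            (fun c => Function.update d i (D c) i j) : UF 𝒰 fun _ : B => K), hDA i j⟩ := rfl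
      have h4 : (⟨(UF.mk 𝒰 (fun c => Function.update d i (D c) i j) : UF 𝒰 fun _ : B => K),
          hDA i j⟩ : A) = ⟨(UF.mk 𝒰 (fun b => D b j) : UF 𝒰 fun _ : B => K),
            Algebra.subset_adjoin ⟨j, rfl⟩⟩ := by
        apply Subtype.ext
        show (UF.mk 𝒰 (fun c => Function.update d i (D c) i j) : UF 𝒰 fun _ : B => K) =
          (UF.mk 𝒰 (fun b => D b j) : UF 𝒰 fun _ : B => K)
        rw [h1]
      rw [h3, h2, h4]
      exact hφ j
    · rw [Function.update_of_ne hik]
      have h1 : (fun c => Function.update d k (D c) i j) = fun _ => d i j := by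
        funext c
        rw [Function.update_of_ne hik]
      have h3 : (⟨(UF.mk 𝒰 (fun c => Function.update d k (D c) i j) : UF 𝒰 fun _ : B => K),
          hAC (hDA i j)⟩ : C) = algebraMap K C (d i j) :=
        Subtype.ext (congrArg (fun f => (UF.mk 𝒰 f : UF 𝒰 fun _ : B => K)) h1)
      rw [h3, AlgHom.commutes]
      rfl
  rw [hD] at hfin
  exact ⟨_, hfin⟩

end

end Pool.Agent.helper26.IM
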